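import Pool.Agent.Helper80.FW.Core

/-!
Homogeneous idempotent elements attached to propositional formulas (with random linear
combinations chosen at every disjunction), and the list of their errors.
-/

set_option autoImplicit false
set_option linter.unusedSectionVars false

namespace Pool.Agent.Helper94.FW

open Pool.Agent.Helper21.AC0p
open Pool.Agent.Helper80.FW (Dg HatSys ErrFree)

/-- one factor of the approximator of a disjunction -/
noncomputable def tf {𝒞 : Type*} [CommRing 𝒞] (p : ℕ) (t : 𝒞) (D : ℕ) {m : ℕ} (B : Fin m → 𝒞)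
    (c : Fin m → ℕ) : 𝒞 :=
  t ^ (D * (p - 1)) - (∑ i, c i • B i) ^ (p - 1)

/-- the product of the factors -/
noncomputable def tp {𝒞 : Type*} [CommRing 𝒞] (p : ℕ) (t : 𝒞) (D : ℕ) {m l : ℕ} (B : Fin m → 𝒞)
    (c : Fin l → Fin m → ℕ) : 𝒞 :=
  ∏ u, tf p t D B (c u)

/-- a rule choosing the coefficients of the linear combinations at a disjunction -/
abbrev Chooser (𝒞 : Type*) (l : ℕ) : Type _ :=
  (m : ℕ) → (D : ℕ) → (Fin m → 𝒞) → Fin l → Fin m → ℕ

/-- the element attached to a formula -/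
noncomputable def hat {𝒞 : Type*} [CommRing 𝒞] (p l : ℕ) (t : 𝒞) (x : ℕ → 𝒞)
    (ch : Chooser 𝒞 l) : Fm → 𝒞
  | .var i => x i
  | .neg A => t ^ (Dg p l (A.depth + 1) - Dg p l A.depth) *
      (t ^ Dg p l A.depth - hat p l t x ch A)
  | .mod _ f =>
      t ^ ((l - 1) * (p - 1) * Dg p l (Finset.univ.sup fun i => (f i).depth)) *
      (t ^ ((p - 1) * Dg p l (Finset.univ.sup fun i => (f i).depth)) -
        (∑ i, t ^ (Dg p l (Finset.univ.sup fun i => (f i).depth) - Dg p l (f i).depth) *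
          hat p l t x ch (f i)) ^ (p - 1))
  | .or m f =>
      t ^ Dg p l ((Finset.univ.sup fun i => (f i).depth) + 1) -
        tp p t (Dg p l (Finset.univ.sup fun i => (f i).depth))
          (fun i => t ^ (Dg p l (Finset.univ.sup fun i => (f i).depth) - Dg p l (f i).depth) *
            hat p l t x ch (f i))
          (ch m (Dg p l (Finset.univ.sup fun i => (f i).depth))
            (fun i => t ^ (Dg p l (Finset.univ.sup fun i => (f i).depth) - Dg p l (f i).depth) *
              hat p l t x ch (f i)))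

/-- the list of error elements of a formula -/
noncomputable def errs {𝒞 : Type*} [CommRing 𝒞] (p l : ℕ) (t : 𝒞) (x : ℕ → 𝒞)
    (ch : Chooser 𝒞 l) : Fm → List 𝒞
  | .var _ => []
  | .neg A => errs p l t x ch A
  | .mod _ f => (List.ofFn fun i => errs p l t x ch (f i)).flatten
  | .or m f =>
      (List.ofFn fun i : Fin m =>
        t ^ (Dg p l (Finset.univ.sup fun i => (f i).depth) *
            (1 + l * (p - 1))) *
        (t ^ (Dg p l (Finset.univ.sup fun i => (f i).depth) - Dg p l (f i).depth) *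
            hat p l t x ch (f i)) *
        tp p t (Dg p l (Finset.univ.sup fun i => (f i).depth))
          (fun i => t ^ (Dg p l (Finset.univ.sup fun i => (f i).depth) - Dg p l (f i).depth) *
            hat p l t x ch (f i))
          (ch m (Dg p l (Finset.univ.sup fun i => (f i).depth))
            (fun i => t ^ (Dg p l (Finset.univ.sup fun i => (f i).depth) - Dg p l (f i).depth) *
              hat p l t x ch (f i)))) ++
      (List.ofFn fun i => errs p l t x ch (f i)).flatten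


section algebra

variable {𝒞 : Type*} [CommRing 𝒞]

theorem pow_succ_idem {s B : 𝒞} (h : B * B = s * B) (n : ℕ) : B ^ (n + 1) = s ^ n * B := by
  induction n with
  | zero => simp
  | succ n ih => rw [pow_succ, ih, mul_assoc, h, pow_succ]; ring

theorem lin_pow {p : ℕ} [hp : Fact p.Prime] [CharP 𝒞 p] {t : 𝒞} {D m : ℕ} {B : Fin m → 𝒞}
    (hB : ∀ i, B i * B i = t ^ D * B i) (c : Fin m → ℕ) :
    (∑ i, c i • B i) ^ p = t ^ (D * (p - 1)) * ∑ i, c i • B i := by
  rw [sum_pow_char]
  rw [Finset.mul_sum]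
  refine Finset.sum_congr rfl fun i _ => ?_
  have h1 : p = (p - 1) + 1 := (Nat.succ_pred_prime hp.out).symm
  have h2 : B i ^ p = t ^ (D * (p - 1)) * B i := by
    conv_lhs => rw [h1]
    rw [pow_succ_idem (hB i), pow_mul]
  have h3 : ((c i : ℕ) : 𝒞) ^ p = (c i : ℕ) := by
    have := map_natCast (frobenius 𝒞 p) (c i)
    rwa [frobenius_def] at this
  rw [nsmul_eq_mul, mul_pow, h2, h3]
  ring

theorem tf_idem {p : ℕ} [hp : Fact p.Prime] [CharP 𝒞 p] {t : 𝒞} {D m : ℕ} {B : Fin m → 𝒞}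
    (hB : ∀ i, B i * B i = t ^ D * B i) (c : Fin m → ℕ) :
    tf p t D B c * tf p t D B c = t ^ (D * (p - 1)) * tf p t D B c := by
  have h := lin_pow (p := p) hB c
  unfold tf
  set L := ∑ i, c i • B i
  set s := t ^ (D * (p - 1))
  have h2 : 2 ≤ p := hp.out.two_le
  have h3 : L ^ (p - 1) * L ^ (p - 1) = s * L ^ (p - 1) := by
    have e1 : L ^ (p - 1) * L ^ (p - 1) = L ^ p * L ^ (p - 2) := by
      rw [← pow_add, ← pow_add]; congr 1; omega
    have e2 : L * L ^ (p - 2) = L ^ (p - 1) := by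
      rw [← pow_succ']; congr 1; omega
    rw [e1, h, mul_assoc, e2]
  linear_combination h3

theorem tp_idem {p : ℕ} [hp : Fact p.Prime] [CharP 𝒞 p] {t : 𝒞} {D m l : ℕ} {B : Fin m → 𝒞}
    (hB : ∀ i, B i * B i = t ^ D * B i) (c : Fin l → Fin m → ℕ) :
    tp p t D B c * tp p t D B c = t ^ (D * (l * (p - 1))) * tp p t D B c := by
  unfold tp
  rw [← Finset.prod_mul_distrib]
  rw [Finset.prod_congr rfl fun u _ => tf_idem (p := p) hB (c u)]
  rw [Finset.prod_mul_distrib, Finset.prod_const, Finset.card_univ, Fintype.card_fin, ← pow_mul]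
  congr 2; ring

theorem tp_mod {p : ℕ} [hp : Fact p.Prime] {t : 𝒞} {D m l : ℕ} {B : Fin m → 𝒞}
    (c : Fin l → Fin m → ℕ) (I : Ideal 𝒞) (hI : ∀ i, B i ∈ I) :
    t ^ (D * (l * (p - 1))) - tp p t D B c ∈ I := by
  rw [← Ideal.Quotient.eq_zero_iff_mem, map_sub, sub_eq_zero]
  unfold tp tf
  rw [map_prod]
  have h0 : p - 1 ≠ 0 := by have := hp.out.two_le; omega
  have h1 : ∀ u : Fin l, Ideal.Quotient.mk I (t ^ (D * (p - 1)) - (∑ i, c u i • B i) ^ (p - 1)) =
      Ideal.Quotient.mk I (t ^ (D * (p - 1))) := by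
    intro u
    rw [map_sub, map_pow _ (∑ i, c u i • B i), map_sum]
    have : ∀ i, Ideal.Quotient.mk I (c u i • B i) = 0 := by
      intro i
      rw [Ideal.Quotient.eq_zero_iff_mem, nsmul_eq_mul]
      exact I.mul_mem_left _ (hI i)
    rw [Finset.sum_congr rfl fun i _ => this i, Finset.sum_const_zero, zero_pow h0, sub_zero]
  rw [Finset.prod_congr rfl fun u _ => h1 u, Finset.prod_const, Finset.card_univ,
    Fintype.card_fin, ← map_pow, ← pow_mul]
  congr 2; ring

end algebra

section degrees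

variable {p l : ℕ}

theorem one_le_base (hp : p.Prime) (hl : 1 ≤ l) : 1 ≤ l * (p - 1) := by
  have := hp.two_le
  exact Nat.mul_pos hl (by omega)

theorem Dg_succ (k : ℕ) : Dg p l (k + 1) = Dg p l k * (l * (p - 1)) := by
  unfold Dg; rw [pow_succ]

theorem Dg_mono (hp : p.Prime) (hl : 1 ≤ l) {a b : ℕ} (h : a ≤ b) : Dg p l a ≤ Dg p l b :=
  Nat.pow_le_pow_right (one_le_base hp hl) h

theorem Dg_pos (hp : p.Prime) (hl : 1 ≤ l) (a : ℕ) : 1 ≤ Dg p l a :=
  Nat.one_le_pow _ _ (one_le_base hp hl)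

theorem Dg_zero : Dg p l 0 = 1 := by simp [Dg]

theorem depth_le_sup {m : ℕ} (f : Fin m → Fm) (i : Fin m) :
    (f i).depth ≤ Finset.univ.sup fun i => (f i).depth :=
  Finset.le_sup (f := fun i => (f i).depth) (Finset.mem_univ i)

end degrees

section hats

variable {𝒞 : Type*} [CommRing 𝒞] {p l : ℕ} {t : 𝒞} {x : ℕ → 𝒞} {ch : Chooser 𝒞 l}

theorem pad_idem (hp : p.Prime) (hl : 1 ≤ l) {A : Fm} {k : ℕ} (hk : A.depth ≤ k)
    (h : hat p l t x ch A * hat p l t x ch A = t ^ Dg p l A.depth * hat p l t x ch A) :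
    (t ^ (Dg p l k - Dg p l A.depth) * hat p l t x ch A) *
      (t ^ (Dg p l k - Dg p l A.depth) * hat p l t x ch A) =
      t ^ Dg p l k * (t ^ (Dg p l k - Dg p l A.depth) * hat p l t x ch A) := by
  have h1 : Dg p l k = (Dg p l k - Dg p l A.depth) + Dg p l A.depth :=
    (Nat.sub_add_cancel (Dg_mono hp hl hk)).symm
  have h2 : t ^ Dg p l k = t ^ (Dg p l k - Dg p l A.depth) * t ^ Dg p l A.depth := by
    rw [← pow_add, ← h1]
  rw [h2]
  set s := t ^ (Dg p l k - Dg p l A.depth)
  linear_combination s * s * h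

theorem hat_var (i : ℕ) : hat p l t x ch (.var i) = x i := by rw [hat]

theorem hat_neg (A : Fm) : hat p l t x ch (.neg A) =
    t ^ (Dg p l (A.depth + 1) - Dg p l A.depth) *
      (t ^ Dg p l A.depth - hat p l t x ch A) := by rw [hat]

theorem hat_mod (m : ℕ) (f : Fin m → Fm) : hat p l t x ch (.mod m f) =
    t ^ ((l - 1) * (p - 1) * Dg p l (Finset.univ.sup fun i => (f i).depth)) *
      (t ^ ((p - 1) * Dg p l (Finset.univ.sup fun i => (f i).depth)) -
        (∑ i, t ^ (Dg p l (Finset.univ.sup fun i => (f i).depth) - Dg p l (f i).depth) *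
          hat p l t x ch (f i)) ^ (p - 1)) := by rw [hat]

theorem hat_or (m : ℕ) (f : Fin m → Fm) : hat p l t x ch (.or m f) =
      t ^ Dg p l ((Finset.univ.sup fun i => (f i).depth) + 1) -
        tp p t (Dg p l (Finset.univ.sup fun i => (f i).depth))
          (fun i => t ^ (Dg p l (Finset.univ.sup fun i => (f i).depth) - Dg p l (f i).depth) *
            hat p l t x ch (f i))
          (ch m (Dg p l (Finset.univ.sup fun i => (f i).depth))
            (fun i => t ^ (Dg p l (Finset.univ.sup fun i => (f i).depth) - Dg p l (f i).depth) *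
              hat p l t x ch (f i))) := by rw [hat]

theorem hat_idem [CharP 𝒞 p] (hp : p.Prime) (hl : 1 ≤ l) (hx : ∀ i, x i * x i = t * x i)
    (A : Fm) : hat p l t x ch A * hat p l t x ch A = t ^ Dg p l A.depth * hat p l t x ch A := by
  have : Fact p.Prime := ⟨hp⟩
  induction A with
  | var i => rw [hat_var, Fm.depth, Dg_zero, pow_one, hx]
  | neg A ih =>
    rw [hat_neg, Fm.depth]
    have h1 : Dg p l (A.depth + 1) = (Dg p l (A.depth + 1) - Dg p l A.depth) + Dg p l A.depth :=
      (Nat.sub_add_cancel (Dg_mono hp hl (Nat.le_succ _))).symm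
    have h2 : t ^ Dg p l (A.depth + 1) =
        t ^ (Dg p l (A.depth + 1) - Dg p l A.depth) * t ^ Dg p l A.depth := by
      rw [← pow_add, ← h1]
    rw [h2]
    set s := t ^ (Dg p l (A.depth + 1) - Dg p l A.depth)
    linear_combination s * s * ih
  | or m f ih =>
    have hB := fun i => pad_idem hp hl (depth_le_sup f i) (ih i)
    have h1 := tp_idem (p := p) hB (ch m (Dg p l (Finset.univ.sup fun i => (f i).depth))
            (fun i => t ^ (Dg p l (Finset.univ.sup fun i => (f i).depth) - Dg p l (f i).depth) *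
              hat p l t x ch (f i)))
    rw [← Dg_succ] at h1
    rw [hat_or, Fm.depth]
    linear_combination h1
  | mod m f ih =>
    have hB := fun i => pad_idem hp hl (depth_le_sup f i) (ih i)
    have h1 := tf_idem (p := p) hB (fun _ => 1)
    unfold tf at h1
    simp only [one_smul] at h1
    rw [hat_mod, Fm.depth, Dg_succ]
    set D := Dg p l (Finset.univ.sup fun i => (f i).depth)
    set L := ∑ i, t ^ (D - Dg p l (f i).depth) * hat p l t x ch (f i)
    have h3 : t ^ (D * (l * (p - 1))) = t ^ ((l - 1) * (p - 1) * D) * t ^ (D * (p - 1)) := by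
      rw [← pow_add]
      congr 1
      obtain ⟨l', rfl⟩ : ∃ l', l = l' + 1 := ⟨l - 1, by omega⟩
      simp only [Nat.add_sub_cancel]
      ring
    rw [h3, mul_comm (p - 1) D]
    set s := t ^ ((l - 1) * (p - 1) * D)
    linear_combination s * s * h1

theorem hat_or_mem [CharP 𝒞 p] (hp : p.Prime) (m : ℕ) (f : Fin m → Fm) :
    hat p l t x ch (.or m f) ∈ Ideal.span (Set.range fun i => hat p l t x ch (f i)) := by
  have : Fact p.Prime := ⟨hp⟩
  rw [hat_or, Dg_succ]
  exact tp_mod _ _ fun i => Ideal.mul_mem_left _ _ (Ideal.subset_span ⟨i, rfl⟩)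

theorem hatSys [CharP 𝒞 p] (hp : p.Prime) (hl : 1 ≤ l) (hx : ∀ i, x i * x i = t * x i) :
    HatSys p l t x (hat p l t x ch) where
  var := hat_var
  idem := hat_idem hp hl hx
  neg := hat_neg
  mod := hat_mod
  or := hat_or_mem hp

end hats

section modules

variable {K 𝒞 𝓜 : Type*} [Field K] [CommRing 𝒞] [Algebra K 𝒞] [AddCommGroup 𝓜] [Module K 𝓜]
  [Module 𝒞 𝓜] [IsScalarTower K 𝒞 𝓜]

/-- `h` is homogeneous of degree `e` -/
def Hom (G : ℕ → Submodule K 𝓜) (e : ℕ) (h : 𝒞) : Prop := ∀ j, ∀ Q ∈ G j, h • Q ∈ G (j + e)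

/-- rank of `h` on the piece of degree zero -/
noncomputable def rk (G : ℕ → Submodule K 𝓜) (h : 𝒞) : ℕ :=
  Module.finrank K ((G 0).map (Algebra.lsmul K K 𝓜 h : 𝓜 →ₗ[K] 𝓜))

variable {G : ℕ → Submodule K 𝓜}

theorem Hom.mul {a b : ℕ} {g h : 𝒞} (hg : Hom G a g) (hh : Hom G b h) : Hom G (a + b) (g * h) := by
  intro j Q hQ
  rw [mul_smul, add_comm a b, ← add_assoc]
  exact hg _ _ (hh _ _ hQ)

theorem Hom.congr {a b : ℕ} {g h : 𝒞} (hg : Hom G a g) (e : a = b) (e' : g = h) :
    Hom G b h := by subst e; subst e'; exact hg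

theorem Hom.one : Hom G 0 (1 : 𝒞) := by
  intro j Q hQ; rwa [one_smul]

theorem Hom.pow {a : ℕ} {g : 𝒞} (hg : Hom G a g) (n : ℕ) : Hom G (n * a) (g ^ n) := by
  induction n with
  | zero => simpa using (Hom.one (G := G) (𝒞 := 𝒞))
  | succ n ih => exact (ih.mul hg).congr (by ring) (pow_succ _ _).symm

theorem Hom.add {a : ℕ} {g h : 𝒞} (hg : Hom G a g) (hh : Hom G a h) : Hom G a (g + h) := by
  intro j Q hQ
  rw [add_smul]
  exact add_mem (hg _ _ hQ) (hh _ _ hQ)

theorem Hom.neg {a : ℕ} {g : 𝒞} (hg : Hom G a g) : Hom G a (-g) := by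
  intro j Q hQ
  rw [neg_smul]
  exact neg_mem (hg _ _ hQ)

theorem Hom.sub {a : ℕ} {g h : 𝒞} (hg : Hom G a g) (hh : Hom G a h) : Hom G a (g - h) :=
  (hg.add hh.neg).congr rfl (sub_eq_add_neg _ _).symm

theorem Hom.zero (a : ℕ) : Hom G a (0 : 𝒞) := by
  intro j Q hQ
  rw [zero_smul]
  exact zero_mem _

theorem Hom.nsmul {a : ℕ} {g : 𝒞} (hg : Hom G a g) (n : ℕ) : Hom G a (n • g) := by
  induction n with
  | zero => simpa using (Hom.zero (G := G) (𝒞 := 𝒞) a)
  | succ n ih => exact (ih.add hg).congr rfl (succ_nsmul _ _).symm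

theorem Hom.sum {ι : Type*} (s : Finset ι) {a : ℕ} {g : ι → 𝒞} (hg : ∀ i ∈ s, Hom G a (g i)) :
    Hom G a (∑ i ∈ s, g i) := by
  intro j Q hQ
  rw [Finset.sum_smul]
  exact sum_mem fun i hi => hg i hi _ _ hQ

theorem Hom.prod {ι : Type*} (s : Finset ι) {a : ℕ} {g : ι → 𝒞} (hg : ∀ i ∈ s, Hom G a (g i)) :
    Hom G (s.card * a) (∏ i ∈ s, g i) := by
  classical
  induction s using Finset.induction_on with
  | empty => simpa using (Hom.one (G := G) (𝒞 := 𝒞))
  | insert i s hi ih =>
    rw [Finset.prod_insert hi, Finset.card_insert_of_notMem hi]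
    exact ((hg i (Finset.mem_insert_self _ _)).mul
      (ih fun k hk => hg k (Finset.mem_insert_of_mem hk))).congr (by ring) rfl

variable {p l : ℕ} {t : 𝒞} {x : ℕ → 𝒞} {ch : Chooser 𝒞 l}

theorem Hom.tf {D m : ℕ} {B : Fin m → 𝒞} (ht : Hom G 1 t) (hB : ∀ i, Hom G D (B i))
    (c : Fin m → ℕ) : Hom G (D * (p - 1)) (tf p t D B c) := by
  unfold FW.tf
  refine ((ht.pow _).congr (by ring) rfl).sub ?_
  exact ((Hom.sum _ fun i _ => (hB i).nsmul _).pow _).congr (by ring) rfl

theorem Hom.tp {D m : ℕ} {B : Fin m → 𝒞} (ht : Hom G 1 t) (hB : ∀ i, Hom G D (B i))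
    (c : Fin l → Fin m → ℕ) : Hom G (D * (l * (p - 1))) (tp p t D B c) := by
  unfold FW.tp
  refine (Hom.prod _ fun u _ => Hom.tf ht hB (c u)).congr ?_ rfl
  rw [Finset.card_univ, Fintype.card_fin]; ring

theorem hom_pad (hp : p.Prime) (hl : 1 ≤ l) (ht : Hom G 1 t) {d k : ℕ} (h : d ≤ k) {g : 𝒞}
    (hg : Hom G (Dg p l d) g) : Hom G (Dg p l k) (t ^ (Dg p l k - Dg p l d) * g) :=
  ((ht.pow _).mul hg).congr (by have := Dg_mono hp hl h; omega) rfl

theorem hom_hat (hp : p.Prime) (hl : 1 ≤ l) (ht : Hom G 1 t) (hx : ∀ i, Hom G 1 (x i)) (A : Fm) :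
    Hom G (Dg p l A.depth) (hat p l t x ch A) := by
  induction A with
  | var i => rw [hat_var, Fm.depth, Dg_zero]; exact hx i
  | neg A ih =>
    rw [hat_neg, Fm.depth]
    exact hom_pad hp hl ht (Nat.le_succ _) (((ht.pow _).congr (by ring) rfl).sub ih)
  | or m f ih =>
    have hB := fun i => hom_pad hp hl ht (depth_le_sup f i) (ih i)
    rw [hat_or, Fm.depth]
    refine ((ht.pow _).congr (by ring) rfl).sub ?_
    rw [Dg_succ]
    exact Hom.tp ht hB _
  | mod m f ih =>
    have hB := fun i => hom_pad hp hl ht (depth_le_sup f i) (ih i)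
    rw [hat_mod, Fm.depth, Dg_succ]
    refine ((ht.pow _).mul (((ht.pow _).congr (mul_one _) rfl).sub
      ((Hom.sum _ fun i _ => hB i).pow _))).congr ?_ rfl
    obtain ⟨l', rfl⟩ : ∃ l', l = l' + 1 := ⟨l - 1, by omega⟩
    simp only [Nat.add_sub_cancel]
    ring

/-- The choice of the coefficients at a disjunction (statement of the averaging lemma). -/
def Avg (p l H : ℕ) (G : ℕ → Submodule K 𝓜) (t : 𝒞) (w : ℕ) : Prop :=
  ∀ (m D : ℕ) (B : Fin m → 𝒞), D * (1 + l * (p - 1)) ≤ w → (∀ i, Hom G D (B i)) →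
    (∀ i, B i * B i = t ^ D * B i) →
    ∃ c : Fin l → Fin m → ℕ, p ^ l * ∑ i, rk G (t ^ (D * (1 + l * (p - 1))) * B i * tp p t D B c)
      ≤ m * H

open Classical in
/-- the chooser given by the averaging lemma -/
noncomputable def chz (p l H : ℕ) (G : ℕ → Submodule K 𝓜) (t : 𝒞) : Chooser 𝒞 l := fun m D B =>
  if h : ∃ c : Fin l → Fin m → ℕ,
      p ^ l * ∑ i, rk G (t ^ (D * (1 + l * (p - 1))) * B i * tp p t D B c) ≤ m * H
  then h.choose else fun _ _ => 0

theorem chz_spec {H : ℕ} {m D : ℕ} {B : Fin m → 𝒞}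
    (h : ∃ c : Fin l → Fin m → ℕ,
      p ^ l * ∑ i, rk G (t ^ (D * (1 + l * (p - 1))) * B i * tp p t D B c) ≤ m * H) :
    p ^ l * ∑ i, rk G (t ^ (D * (1 + l * (p - 1))) * B i * tp p t D B (chz p l H G t m D B)) ≤
      m * H := by
  have h1 : chz p l H G t m D B = h.choose := by
    unfold chz
    rw [dif_pos h]
  rw [h1]
  exact h.choose_spec

theorem sum_flatten_ofFn {m : ℕ} (g : Fin m → List 𝒞) (φ : 𝒞 → ℕ) :
    (((List.ofFn g).flatten).map φ).sum = ∑ i, ((g i).map φ).sum := by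
  rw [List.map_flatten, List.sum_flatten, List.map_map, List.map_ofFn, List.sum_ofFn]
  rfl

theorem errs_rank (hp : p.Prime) (hl : 1 ≤ l) [CharP 𝒞 p] (ht : Hom G 1 t)
    (hx : ∀ i, Hom G 1 (x i)) (hxx : ∀ i, x i * x i = t * x i) {w H : ℕ}
    (havg : Avg p l H G t w) (A : Fm) (hA : 2 * Dg p l A.depth ≤ w) :
    p ^ l * ((errs p l t x (chz p l H G t) A).map (rk G)).sum + H ≤ A.size * H := by
  induction A with
  | var i => simp [errs, Fm.size]
  | neg A ih =>
    rw [errs, Fm.size]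
    have h1 : Dg p l A.depth ≤ Dg p l (Fm.neg A).depth := Dg_mono hp hl (Nat.le_succ _)
    have := ih (by omega)
    nlinarith
  | or m f ih =>
    have hk : ∀ i, Dg p l (f i).depth ≤ Dg p l (Fm.or m f).depth := fun i =>
      Dg_mono hp hl ((depth_le_sup f i).trans (Nat.le_succ _))
    have h1 := fun i => ih i (by have := hk i; omega)
    have hs : Dg p l (Fm.or m f).depth =
        Dg p l (Finset.univ.sup fun i => (f i).depth) * (l * (p - 1)) := by
      rw [Fm.depth, Dg_succ]
    have hw : Dg p l (Finset.univ.sup fun i => (f i).depth) * (1 + l * (p - 1)) ≤ w := by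
      have h3 : Dg p l (Finset.univ.sup fun i => (f i).depth) ≤ Dg p l (Fm.or m f).depth :=
        Dg_mono hp hl (Nat.le_succ _)
      rw [mul_add, mul_one, ← hs]
      omega
    have h2 := chz_spec (havg m (Dg p l (Finset.univ.sup fun i => (f i).depth))
      (fun i => t ^ (Dg p l (Finset.univ.sup fun i => (f i).depth) - Dg p l (f i).depth) *
              hat p l t x (chz p l H G t) (f i)) hw
      (fun i => hom_pad hp hl ht (depth_le_sup f i) (hom_hat hp hl ht hx (f i)))
      (fun i => pad_idem hp hl (depth_le_sup f i) (hat_idem hp hl hxx (f i))))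
    rw [errs, Fm.size, List.map_append, List.sum_append, List.map_ofFn, List.sum_ofFn,
      sum_flatten_ofFn, mul_add]
    have h4 : p ^ l * ∑ i, ((errs p l t x (chz p l H G t) (f i)).map (rk G)).sum + m * H ≤
        (∑ i, (f i).size) * H := by
      rw [Finset.mul_sum, Finset.sum_mul]
      have : m * H = ∑ _i : Fin m, H := by simp
      rw [this, ← Finset.sum_add_distrib]
      exact Finset.sum_le_sum fun i _ => h1 i
    have h5 : (∑ i, (f i).size + 1) * H = (∑ i, (f i).size) * H + H := by ring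
    rw [h5]
    refine Nat.add_le_add_right (le_trans ?_ h4) H
    rw [add_comm]
    exact Nat.add_le_add_left h2 _
  | mod m f ih =>
    have hk : ∀ i, Dg p l (f i).depth ≤ Dg p l (Fm.mod m f).depth := fun i =>
      Dg_mono hp hl ((depth_le_sup f i).trans (Nat.le_succ _))
    have h1 := fun i => ih i (by have := hk i; omega)
    rw [errs, Fm.size, sum_flatten_ofFn, Finset.mul_sum]
    have h4 : ∑ i, p ^ l * ((errs p l t x (chz p l H G t) (f i)).map (rk G)).sum ≤
        (∑ i, (f i).size) * H := by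
      rw [Finset.sum_mul]
      exact Finset.sum_le_sum fun i _ => (Nat.le_add_right _ _).trans (h1 i)
    have h5 : (∑ i, (f i).size + 1) * H = (∑ i, (f i).size) * H + H := by ring
    rw [h5]
    exact Nat.add_le_add_right h4 H

/-- the error element of the disjunct `i` of the disjunction `or m f` -/
theorem errs_mem {m : ℕ} {f : Fin m → Fm} {A : Fm} (h : Fm.IsSub (.or m f) A) (i : Fin m) :
    t ^ (Dg p l (Finset.univ.sup fun i => (f i).depth) * (1 + l * (p - 1))) *
      (t ^ (Dg p l (Finset.univ.sup fun i => (f i).depth) - Dg p l (f i).depth) *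
        hat p l t x ch (f i)) *
      (t ^ Dg p l (Fm.or m f).depth - hat p l t x ch (.or m f)) ∈ errs p l t x ch A := by
  induction h with
  | refl =>
    rw [errs, hat_or, Fm.depth, sub_sub_cancel]
    exact List.mem_append_left _ (List.mem_ofFn.mpr ⟨i, rfl⟩)
  | neg _ ih => rw [errs]; exact ih
  | or j _ ih =>
    rw [errs]
    exact List.mem_append_right _ (List.mem_flatten.mpr ⟨_, List.mem_ofFn.mpr ⟨j, rfl⟩, ih⟩)
  | mod j _ ih =>
    rw [errs]
    exact List.mem_flatten.mpr ⟨_, List.mem_ofFn.mpr ⟨j, rfl⟩, ih⟩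

theorem isSub_depth {A B : Fm} (h : Fm.IsSub B A) : B.depth ≤ A.depth := by
  induction h with
  | refl => exact le_rfl
  | neg _ ih => exact ih.trans (Nat.le_succ _)
  | or i _ ih => exact ih.trans ((depth_le_sup _ i).trans (Nat.le_succ _))
  | mod i _ ih => exact ih.trans ((depth_le_sup _ i).trans (Nat.le_succ _))

theorem killed_of_errs (hp : p.Prime) (hl : 1 ≤ l) {d : ℕ} {A : Fm} (hA : A.depth ≤ d) {P : 𝓜}
    (hP : ∀ e ∈ errs p l t x ch A, e • P = 0) {m : ℕ} {f : Fin m → Fm}
    (h : Fm.IsSub (.or m f) A) (i : Fin m) :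
    (t ^ (3 * Dg p l d) * (hat p l t x ch (f i) *
      (t ^ Dg p l (Fm.or m f).depth - hat p l t x ch (.or m f)))) • P = 0 := by
  have h1 := hP _ (errs_mem h i)
  have h2 : Dg p l (Fm.or m f).depth ≤ Dg p l d := Dg_mono hp hl ((isSub_depth h).trans hA)
  have h3 : Dg p l (Fm.or m f).depth =
      Dg p l (Finset.univ.sup fun i => (f i).depth) * (l * (p - 1)) := by
    rw [Fm.depth, Dg_succ]
  have h4 : Dg p l (Finset.univ.sup fun i => (f i).depth) ≤ Dg p l (Fm.or m f).depth :=
    Dg_mono hp hl (Nat.le_succ _)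
  set k := Finset.univ.sup fun i => (f i).depth
  set D := Dg p l k
  have h5 : D * (1 + l * (p - 1)) + (D - Dg p l (f i).depth) ≤ 3 * Dg p l d := by
    rw [mul_add, mul_one, ← h3]; omega
  have h6 : t ^ (3 * Dg p l d) = t ^ (3 * Dg p l d - (D * (1 + l * (p - 1)) +
      (D - Dg p l (f i).depth))) * (t ^ (D * (1 + l * (p - 1))) *
      t ^ (D - Dg p l (f i).depth)) := by
    rw [← pow_add, ← pow_add, Nat.sub_add_cancel h5]
  rw [h6]
  have h7 : (t ^ (3 * Dg p l d - (D * (1 + l * (p - 1)) +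
      (D - Dg p l (f i).depth))) * (t ^ (D * (1 + l * (p - 1))) *
      t ^ (D - Dg p l (f i).depth))) * (hat p l t x ch (f i) *
      (t ^ Dg p l (Fm.or m f).depth - hat p l t x ch (.or m f))) =
      t ^ (3 * Dg p l d - (D * (1 + l * (p - 1)) +
      (D - Dg p l (f i).depth))) * (t ^ (D * (1 + l * (p - 1))) *
      (t ^ (D - Dg p l (f i).depth) * hat p l t x ch (f i)) *
      (t ^ Dg p l (Fm.or m f).depth - hat p l t x ch (.or m f))) := by ring
  rw [h7, mul_smul, h1, smul_zero]

/-- Union bound: an element of degree zero killed by all members of a list but not by `h0`. -/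
theorem union_bound [FiniteDimensional K (G 0)] (L : List 𝒞) (h0 : 𝒞)
    (h : (L.map (rk G)).sum < rk G h0) : ∃ P ∈ G 0, h0 • P ≠ 0 ∧ ∀ e ∈ L, e • P = 0 := by
  -- the space killed by the list
  have key : ∀ L : List 𝒞, ∃ U : Submodule K 𝓜, U ≤ G 0 ∧ (∀ P ∈ U, ∀ e ∈ L, e • P = 0) ∧
      Module.finrank K (G 0) ≤ Module.finrank K U + (L.map (rk G)).sum := by
    intro L
    induction L with
    | nil => exact ⟨G 0, le_rfl, by simp, by simp⟩
    | cons e L ih =>
      obtain ⟨U, hU, hU1, hU2⟩ := ih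
      have hfU : FiniteDimensional K U := Submodule.finiteDimensional_of_le hU
      let φ : U →ₗ[K] 𝓜 := (Algebra.lsmul K K 𝓜 e : 𝓜 →ₗ[K] 𝓜).comp U.subtype
      refine ⟨(LinearMap.ker φ).map U.subtype, ?_, ?_, ?_⟩
      · rintro _ ⟨P, _, rfl⟩
        exact hU P.2
      · rintro _ ⟨P, hP, rfl⟩ e' he'
        rcases List.mem_cons.mp he' with rfl | he'
        · have : φ P = 0 := hP
          exact this
        · exact hU1 _ P.2 e' he'
      · have h1 := LinearMap.finrank_range_add_finrank_ker φ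
        have h2 : Module.finrank K (LinearMap.range φ) ≤ rk G e := by
          have hle : LinearMap.range φ ≤ (G 0).map (Algebra.lsmul K K 𝓜 e : 𝓜 →ₗ[K] 𝓜) := by
            rintro _ ⟨P, rfl⟩
            exact ⟨P, hU P.2, rfl⟩
          exact Submodule.finrank_mono hle
        have h3 : Module.finrank K ((LinearMap.ker φ).map U.subtype) =
            Module.finrank K (LinearMap.ker φ) :=
          Submodule.finrank_map_subtype_eq U _
        rw [h3, List.map_cons, List.sum_cons]
        omega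
  obtain ⟨U, hU, hU1, hU2⟩ := key L
  by_contra hcon
  push Not at hcon
  have hfU : FiniteDimensional K U := Submodule.finiteDimensional_of_le hU
  let φ : G 0 →ₗ[K] 𝓜 := (Algebra.lsmul K K 𝓜 h0 : 𝓜 →ₗ[K] 𝓜).comp (G 0).subtype
  have h1 := LinearMap.finrank_range_add_finrank_ker φ
  have h2 : LinearMap.range φ = (G 0).map (Algebra.lsmul K K 𝓜 h0 : 𝓜 →ₗ[K] 𝓜) := by
    rw [LinearMap.range_comp, Submodule.range_subtype]
  have h3 : U ≤ (LinearMap.ker φ).map (G 0).subtype := by
    intro P hP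
    refine ⟨⟨P, hU hP⟩, ?_, rfl⟩
    by_contra hne
    have hne' : h0 • P ≠ 0 := hne
    obtain ⟨e, he, he'⟩ := hcon P (hU hP) hne'
    exact he' (hU1 P hP e he)
  have h4 : Module.finrank K ((LinearMap.ker φ).map (G 0).subtype) =
      Module.finrank K (LinearMap.ker φ) :=
    Submodule.finrank_map_subtype_eq (G 0) _
  have h5 := Submodule.finrank_mono h3
  rw [h2] at h1
  have h6 : rk G h0 + Module.finrank K (LinearMap.ker φ) = Module.finrank K (G 0) := h1
  omega

/-- The elements attached to formulas and a vector killed by all errors of the formulas of a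
list. -/
theorem exists_hats (hp : p.Prime) (hl : 1 ≤ l) [CharP 𝒞 p] [FiniteDimensional K (G 0)]
    (ht : Hom G 1 t) (hx : ∀ i, Hom G 1 (x i)) (hxx : ∀ i, x i * x i = t * x i) {w H d : ℕ}
    (havg : Avg p l H G t w) (L : List Fm) (hL : ∀ A ∈ L, A.depth ≤ d) (hw : 2 * Dg p l d ≤ w)
    (hlt : (L.map Fm.size).sum * H < p ^ l * rk G (t ^ w)) :
    ∃ h : Fm → 𝒞, HatSys p l t x h ∧ ∃ P ∈ G 0, t ^ w • P ≠ 0 ∧ ∀ A ∈ L, ∀ (m : ℕ)
      (f : Fin m → Fm), Fm.IsSub (.or m f) A → ∀ i, (t ^ (3 * Dg p l d) * (h (f i) *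
        (t ^ Dg p l (Fm.or m f).depth - h (.or m f)))) • P = 0 := by
  refine ⟨hat p l t x (chz p l H G t), hatSys hp hl hxx, ?_⟩
  have h1 : ∀ L : List Fm, (∀ A ∈ L, A.depth ≤ d) → p ^ l *
      (((L.map (errs p l t x (chz p l H G t))).flatten).map (rk G)).sum ≤
        (L.map Fm.size).sum * H := by
    intro L
    induction L with
    | nil => simp
    | cons A L ih =>
      intro hL
      have h2 := ih fun B hB => hL B (List.mem_cons_of_mem _ hB)
      have h3 := errs_rank hp hl ht hx hxx havg A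
        ((Nat.mul_le_mul_left 2 (Dg_mono hp hl (hL A List.mem_cons_self))).trans hw)
      rw [List.map_cons, List.flatten_cons, List.map_append, List.sum_append, List.map_cons,
        List.sum_cons, mul_add, add_mul]
      omega
  have hpl : 0 < p ^ l := Nat.pow_pos hp.pos
  have h2 : (((L.map (errs p l t x (chz p l H G t))).flatten).map (rk G)).sum <
      rk G (t ^ w) := by
    have := (h1 L hL).trans_lt hlt
    exact Nat.lt_of_mul_lt_mul_left this
  obtain ⟨P, hP, hP0, hP1⟩ := union_bound _ _ h2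
  refine ⟨P, hP, hP0, fun A hA m f hf i => killed_of_errs hp hl (hL A hA) (fun e he => ?_) hf i⟩
  exact hP1 e (List.mem_flatten.mpr ⟨_, List.mem_map.mpr ⟨A, hA, rfl⟩, he⟩)

end modules

end Pool.Agent.Helper94.FW
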