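import Pool.Agent.Helper94.FW.Hats
import Pool.Agent.Helper80.FW.Mod
import Pool.Agent.Frege.Window

/-!
Assembly of the abstract lower bound from window modules.
-/

set_option autoImplicit false

namespace Pool.Agent.Helper94.FW

open Pool.Agent.Helper21.AC0p
open Pool.Agent.Helper80.FW (Dg HatSys ErrFree)
open Pool.Agent.Frege

/-- the negation of the conjunction of the lines of a list -/
abbrev pref (ρ : List Fm) : Fm := Pool.Agent.Helper80.FW.pre ρ

theorem size_pos (A : Fm) : 1 ≤ A.size := by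
  cases A <;> simp [Fm.size]

theorem size_orL (L : List Fm) : (Fm.orL L).size = (L.map Fm.size).sum + 1 := by
  rw [Fm.orL, Fm.size]
  congr 1
  rw [← List.sum_ofFn]
  congr 1
  apply List.ext_get
  · simp
  · intro n h1 h2
    simp

theorem length_le_psize (π : List Fm) : π.length ≤ psize π := by
  induction π with
  | nil => simp [psize]
  | cons A π ih =>
    have := size_pos A
    simp only [psize, List.map_cons, List.sum_cons, List.length_cons] at ih ⊢
    omega

theorem size_pref (ρ : List Fm) : (pref ρ).size ≤ 2 * psize ρ + 1 := by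
  rw [pref, Pool.Agent.Helper80.FW.pre, size_orL]
  have h : ((ρ.map Fm.neg).map Fm.size).sum = psize ρ + ρ.length := by
    induction ρ with
    | nil => simp [psize]
    | cons A ρ ih =>
      simp only [psize, List.map_cons, List.sum_cons, List.length_cons, Fm.size] at ih ⊢
      omega
  have := length_le_psize ρ
  omega

theorem depth_pref {ρ : List Fm} {d : ℕ} (h : ∀ A ∈ ρ, A.depth ≤ d) :
    (pref ρ).depth ≤ d + 2 := by
  rw [pref, Pool.Agent.Helper80.FW.pre, Fm.orL, Fm.depth]
  apply Nat.succ_le_succ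
  apply Finset.sup_le
  intro i _
  have h1 : (ρ.map Fm.neg).get i ∈ ρ.map Fm.neg := List.get_mem _ _
  obtain ⟨A, hA, hA'⟩ := List.mem_map.mp h1
  rw [← hA', Fm.depth]
  exact Nat.succ_le_succ (h A hA)

theorem psize_suffix {ρ π : List Fm} (h : ρ <:+ π) : psize ρ ≤ psize π := by
  obtain ⟨σ, rfl⟩ := h
  simp [psize]

/-- all the formulas whose errors have to be killed -/
noncomputable def allF (π : List Fm) : List Fm := π ++ π.tails.map pref

theorem sum_allF {π : List Fm} (h : 1 ≤ psize π) :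
    ((allF π).map Fm.size).sum ≤ 7 * psize π ^ 2 := by
  have h1 : ((π.tails.map pref).map Fm.size).sum ≤ (π.length + 1) * (2 * psize π + 1) := by
    have h2 : ∀ L : List (List Fm), (∀ ρ ∈ L, ρ <:+ π) →
        ((L.map pref).map Fm.size).sum ≤ L.length * (2 * psize π + 1) := by
      intro L
      induction L with
      | nil => simp
      | cons ρ L ih =>
        intro hL
        have h3 := ih fun σ hσ => hL σ (List.mem_cons_of_mem _ hσ)
        have h4 := psize_suffix (hL ρ List.mem_cons_self)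
        have h5 := size_pref ρ
        simp only [List.map_cons, List.sum_cons, List.length_cons]
        nlinarith
    have := h2 π.tails fun ρ hρ => (List.mem_tails _ _).mp hρ
    rwa [List.length_tails] at this
  have h2 := length_le_psize π
  have h3 : ((allF π).map Fm.size).sum = psize π + ((π.tails.map pref).map Fm.size).sum := by
    rw [allF, List.map_append, List.sum_append]; rfl
  rw [h3]
  nlinarith

theorem depth_allF {π : List Fm} {d : ℕ} (h : ∀ A ∈ π, A.depth ≤ d) :
    ∀ A ∈ allF π, A.depth ≤ d + 2 := by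
  intro A hA
  rcases List.mem_append.mp hA with hA | hA
  · exact (h A hA).trans (by omega)
  · obtain ⟨ρ, hρ, rfl⟩ := List.mem_map.mp hA
    exact depth_pref fun B hB => h B (((List.mem_tails _ _).mp hρ).subset hB)

/-- The lower bound from window modules. -/
theorem window_lower_aux (p : ℕ) (hp : p.Prime) (R : List Rule) (hR : ∀ r ∈ R, r.Sound p)
    (m0 : ℕ)
    (havg : ∀ (K 𝒞 𝓜 : Type) [Field K] [CommRing 𝒞] [Algebra K 𝒞]
      [AddCommGroup 𝓜] [Module K 𝓜] [Module 𝒞 𝓜] [IsScalarTower K 𝒞 𝓜] [CharP K p]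
      [CharP 𝒞 p] (G : ℕ → Submodule K 𝓜) (t : 𝒞) (w l H : ℕ), (∀ j, FiniteDimensional K (G j)) →
      Hom G 1 t → (∀ j ≤ w, Module.finrank K (G j) ≤ H) → Avg p l H G t w) :
    ∃ C0 : ℕ, ∀ d l w : ℕ, 1 ≤ l → C0 * (l * p) ^ (d + 2) ≤ w →
      ∀ (F : List Clause) (K 𝒞 𝓜 : Type) [Field K] [CommRing 𝒞] [Algebra K 𝒞]
        [AddCommGroup 𝓜] [Module K 𝓜] [Module 𝒞 𝓜] [IsScalarTower K 𝒞 𝓜] [CharP K p]
        (W : Win F m0 K 𝒞 𝓜) (π : List Fm), Refutation R F π → (∀ A ∈ π, A.depth ≤ d) →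
        ∀ H : ℕ, (∀ j ≤ w, Module.finrank K (W.G j) ≤ H) →
        p ^ l * Module.finrank K ((W.G 0).map
          (Algebra.lsmul K K 𝓜 (W.t ^ w) : 𝓜 →ₗ[K] 𝓜)) ≤ (psize π) ^ 2 * C0 * H := by
  have hpf : Fact p.Prime := ⟨hp⟩
  set C1 := Pool.Agent.Helper80.FW.refCost R m0 with hC1
  refine ⟨7 + C1 * (3 + p), ?_⟩
  intro d l w hl hw F K 𝒞 𝓜 _ _ _ _ _ _ _ _ W π hπ hd H hH
  by_contra hcon
  push Not at hcon
  -- the ring is not trivial
  have hnt : Nontrivial 𝒞 := by
    by_contra hn
    rw [not_nontrivial_iff_subsingleton] at hn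
    have h1 : ((W.G 0).map (Algebra.lsmul K K 𝓜 (W.t ^ w) : 𝓜 →ₗ[K] 𝓜)) = ⊥ := by
      rw [Subsingleton.elim (W.t ^ w) 0, map_zero, Submodule.map_zero]
    rw [h1] at hcon
    simp at hcon
  have hch : CharP 𝒞 p := charP_of_injective_algebraMap (algebraMap K 𝒞).injective p
  have hfin0 : FiniteDimensional K (W.G 0) := W.fin 0
  have ht : Hom W.G 1 W.t := W.t_mem
  have hx : ∀ i, Hom W.G 1 (W.x i) := W.x_mem
  have hps : 1 ≤ psize π := by
    have h1 := hπ.2
    have h2 : Fm.size (Fm.orL []) ≤ psize π := by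
      unfold psize
      exact List.single_le_sum (by simp) _ (List.mem_map.mpr ⟨_, h1, rfl⟩)
    exact (size_pos _).trans h2
  have hDle : Dg p l (d + 2) ≤ (l * p) ^ (d + 2) :=
    Nat.pow_le_pow_left (Nat.mul_le_mul_left l (Nat.sub_le _ _)) _
  have hDw : (7 + C1 * (3 + p)) * Dg p l (d + 2) ≤ w :=
    (Nat.mul_le_mul_left _ hDle).trans hw
  have h7w : 7 * Dg p l (d + 2) ≤ w :=
    (Nat.mul_le_mul_right _ (Nat.le_add_right _ _)).trans hDw
  have h2w : 2 * Dg p l (d + 2) ≤ w := by omega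
  have hlt : ((allF π).map Fm.size).sum * H < p ^ l * rk W.G (W.t ^ w) := by
    refine lt_of_le_of_lt ?_ hcon
    refine Nat.mul_le_mul_right H ((sum_allF hps).trans ?_)
    rw [mul_comm]
    exact Nat.mul_le_mul_left _ (Nat.le_add_right _ _)
  obtain ⟨h, hH, P, hP, hP0, hkill⟩ := exists_hats hp hl ht hx W.idem
    (havg K 𝒞 𝓜 W.G W.t w l H W.fin ht hH) (allF π) (depth_allF hd) h2w hlt
  have hfin := Pool.Agent.Helper80.FW.module_refute (K := K) hH hl hR
    (fun C hC => Pool.Agent.Helper80.FW.win_clause W hC) hπ hd P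
    (fun A hA => hkill A (List.mem_append_left _ hA))
    (fun ρ hρ => hkill _ (List.mem_append_right _
      (List.mem_map.mpr ⟨ρ, (List.mem_tails _ _).mpr hρ, rfl⟩)))
  apply hP0
  have hle : C1 * (3 * Dg p l (d + 2) + p * Dg p l (d + 2)) ≤ w := by
    refine le_trans ?_ hDw
    have : C1 * (3 * Dg p l (d + 2) + p * Dg p l (d + 2)) =
      C1 * (3 + p) * Dg p l (d + 2) := by ring
    rw [this, add_mul]
    exact Nat.le_add_left _ _
  have : W.t ^ w = W.t ^ (w - C1 * (3 * Dg p l (d + 2) + p * Dg p l (d + 2))) *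
      W.t ^ (C1 * (3 * Dg p l (d + 2) + p * Dg p l (d + 2))) := by
    rw [← pow_add, Nat.sub_add_cancel hle]
  rw [this, mul_smul, hfin, smul_zero]

end Pool.Agent.Helper94.FW
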